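import Pool.Agent.Helper96_MVS.Split

/-!
MVS (helper96): the volume density of the pullback at the fixed set is the one of the restriction.
-/

noncomputable section

open scoped ContDiff Topology RealInnerProductSpace
open Set MeasureTheory

namespace Pool.Agent.MVS.H96

open Pool.Agent.RF

variable {κ : Finset (Fin 5)} {k m : ℕ} {p : Fin 5 → Prop} [DecidablePred p]

theorem pP_eb_of (hp : ∀ i, i ∈ κ ↔ p i) {i : Fin 5} (h : ¬ p i) : pP κ (eb i) = 0 := by
  ext j
  rw [pP_apply]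
  by_cases hj : j ∈ κ
  · rw [if_pos hj]
    have : j ≠ i := fun e => h (e ▸ (hp j).1 hj)
    unfold eb
    simp [this]
  · rw [if_neg hj]
    rfl

theorem pN_eb_of (hp : ∀ i, i ∈ κ ↔ p i) {i : Fin 5} (h : p i) : pN κ (eb i) = 0 := by
  ext j
  rw [pN_apply]
  by_cases hj : j ∈ κ
  · rw [if_pos hj]
    rfl
  · rw [if_neg hj]
    have : j ≠ i := fun e => hj ((hp j).2 (e ▸ h))
    unfold eb
    simp [this]

/-- the Gram determinant of the pullback at a point of the fixed set -/
theorem det_blk (heqv : EqvStatement) (hp : ∀ i, i ∈ κ ↔ p i) (eN : Fin m ≃ {i // ¬ p i})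
    {G : E5 → Bil E5} {a b : ℝ} {F : E5 → E5} (hS : Setup G κ a b) (hN : NData G κ F) {σ : E5}
    (hσ : pP κ σ = 0) (hσ0 : σ ≠ 0) :
    (gm (pullb G F σ)).det =
      (Matrix.of fun i j : Fin m => G σ (eb (eN i : Fin 5)) (eb (eN j : Fin 5))).det := by
  obtain ⟨_, hper, _⟩ := heqv G κ a b hS
  have hbase := hN.base σ hσ hσ0
  have hsymm := hS.cyl.metric.symm
  have hent : ∀ i j, gm (pullb G F σ) i j = G σ (fderiv ℝ F σ (eb i)) (fderiv ℝ F σ (eb j)) := by
    intro i j
    unfold gm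
    rw [Matrix.of_apply, pullb_apply, hbase]
  have hz : ∀ i, ¬ p i → ∀ j, p j → gm (pullb G F σ) i j = 0 := by
    intro i hi j hj
    rw [hent, hN.dN σ hσ hσ0 _ (pP_eb_of hp hi)]
    exact hper σ hσ hσ0 _ _ (pP_eb_of hp hi) (hN.dP σ hσ hσ0 _ (pN_eb_of hp hj))
  rw [Matrix.twoBlockTriangular_det (gm (pullb G F σ)) p hz]
  have h1 : (Matrix.toSquareBlockProp (gm (pullb G F σ)) p) = 1 := by
    ext i j
    rw [Matrix.toSquareBlockProp_def, Matrix.of_apply, hent,
      hN.iso σ hσ hσ0 _ _ (pN_eb_of hp i.2) (pN_eb_of hp j.2), Matrix.one_apply]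
    unfold eb
    by_cases hij : i = j
    · rw [if_pos hij, hij]
      simp
    · rw [if_neg hij]
      have : (i : Fin 5) ≠ j := fun e => hij (Subtype.ext e)
      simp [EuclideanSpace.inner_single_left, this]
  have h2 : (Matrix.toSquareBlockProp (gm (pullb G F σ)) fun i => ¬ p i).det =
      (Matrix.of fun i j : Fin m => G σ (eb (eN i : Fin 5)) (eb (eN j : Fin 5))).det := by
    rw [← Matrix.det_submatrix_equiv_self eN]
    congr 1
    ext i j
    rw [Matrix.submatrix_apply, Matrix.toSquareBlockProp_def, Matrix.of_apply, Matrix.of_apply,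
      hent, hN.dN σ hσ hσ0 _ (pP_eb_of hp (eN i).2), hN.dN σ hσ hσ0 _ (pP_eb_of hp (eN j).2)]
  rw [h1, h2, Matrix.det_one, one_mul]

end Pool.Agent.MVS.H96
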