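import Pool.Agent.MVS.Stmts

/-!
MVS (helper96): splitting of the coordinates of `ℝ^5` and Fubini.
-/

noncomputable section

open scoped ContDiff Topology RealInnerProductSpace
open Set MeasureTheory

namespace Pool.Agent.MVS.H96

open Pool.Agent.RF

variable {κ : Finset (Fin 5)} {k m : ℕ} {p : Fin 5 → Prop} [DecidablePred p]

/-- coordinates in `κ` and outside of `κ` -/
def je (eP : Fin k ≃ {i // p i}) (eN : Fin m ≃ {i // ¬ p i}) :
    E (Fin k) × E (Fin m) ≃ᵐ E5 :=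
  ((MeasurableEquiv.toLp 2 (Fin k → ℝ)).symm.prodCongr
    (MeasurableEquiv.toLp 2 (Fin m → ℝ)).symm).trans
    (((MeasurableEquiv.piCongrLeft (fun _ => ℝ) eP).prodCongr
      (MeasurableEquiv.piCongrLeft (fun _ => ℝ) eN)).trans
      ((MeasurableEquiv.piEquivPiSubtypeProd (fun _ : Fin 5 => ℝ) p).symm.trans
        (MeasurableEquiv.toLp 2 (Fin 5 → ℝ))))

theorem mp_je (eP : Fin k ≃ {i // p i}) (eN : Fin m ≃ {i // ¬ p i}) :
    MeasurePreserving (je eP eN) volume volume := by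
  have h1 : MeasurePreserving ((MeasurableEquiv.toLp 2 (Fin k → ℝ)).symm.prodCongr
      (MeasurableEquiv.toLp 2 (Fin m → ℝ)).symm)
      ((volume : Measure (E (Fin k))).prod (volume : Measure (E (Fin m))))
      ((volume : Measure (Fin k → ℝ)).prod (volume : Measure (Fin m → ℝ))) :=
    (PiLp.volume_preserving_ofLp (Fin k)).prod (PiLp.volume_preserving_ofLp (Fin m))
  have h2 : MeasurePreserving ((MeasurableEquiv.piCongrLeft (fun _ => ℝ) eP).prodCongr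
      (MeasurableEquiv.piCongrLeft (fun _ => ℝ) eN))
      ((volume : Measure (Fin k → ℝ)).prod (volume : Measure (Fin m → ℝ)))
      ((volume : Measure ({i // p i} → ℝ)).prod (volume : Measure ({i // ¬ p i} → ℝ))) :=
    (volume_measurePreserving_piCongrLeft (fun _ : {i // p i} => ℝ) eP).prod
      (volume_measurePreserving_piCongrLeft (fun _ : {i // ¬ p i} => ℝ) eN)
  have h3 := (volume_preserving_piEquivPiSubtypeProd (fun _ : Fin 5 => ℝ) p).symm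
  have h4 := PiLp.volume_preserving_toLp (Fin 5)
  exact h4.comp (h3.comp (h2.comp h1))

theorem je_in (eP : Fin k ≃ {i // p i}) (eN : Fin m ≃ {i // ¬ p i}) (u : E (Fin k))
    (v : E (Fin m)) (a : Fin k) : je eP eN (u, v) (eP a) = u a := by
  change (MeasurableEquiv.piEquivPiSubtypeProd (fun _ : Fin 5 => ℝ) p).symm
    (MeasurableEquiv.piCongrLeft (fun _ => ℝ) eP (fun i => u i),
      MeasurableEquiv.piCongrLeft (fun _ => ℝ) eN (fun i => v i)) (eP a) = u a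
  change (if h : p (eP a : Fin 5) then
    (MeasurableEquiv.piCongrLeft (fun _ => ℝ) eP (fun i => u i)) ⟨eP a, h⟩ else _) = u a
  rw [dif_pos (eP a).2]
  exact Equiv.piCongrLeft_apply_apply (fun _ => ℝ) eP (fun i => u i) a

theorem je_out (eP : Fin k ≃ {i // p i}) (eN : Fin m ≃ {i // ¬ p i}) (u : E (Fin k))
    (v : E (Fin m)) (a : Fin m) : je eP eN (u, v) (eN a) = v a := by
  change (if h : p (eN a : Fin 5) then _ else
    (MeasurableEquiv.piCongrLeft (fun _ => ℝ) eN (fun i => v i)) ⟨eN a, h⟩) = v a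
  rw [dif_neg (eN a).2]
  exact Equiv.piCongrLeft_apply_apply (fun _ => ℝ) eN (fun i => v i) a

theorem pP_apply (κ : Finset (Fin 5)) (z : E5) (i : Fin 5) :
    pP κ z i = if i ∈ κ then z i else 0 := by
  unfold pP eb
  simp [Finset.sum_apply, Pi.single_apply]

theorem pN_apply (κ : Finset (Fin 5)) (z : E5) (i : Fin 5) :
    pN κ z i = if i ∈ κ then 0 else z i := by
  unfold pN
  rw [pP_apply]
  by_cases h : i ∈ κ
  · simp [h]
  · simp [h]

/-- two points of `ℝ^5` with the same coordinates in and outside of `κ` -/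
theorem ext5 (eP : Fin k ≃ {i // p i}) (eN : Fin m ≃ {i // ¬ p i}) {x y : E5}
    (h1 : ∀ a, x (eP a) = y (eP a)) (h2 : ∀ a, x (eN a) = y (eN a)) : x = y := by
  ext i
  by_cases h : p i
  · have := h1 (eP.symm ⟨i, h⟩)
    simpa using this
  · have := h2 (eN.symm ⟨i, h⟩)
    simpa using this

theorem pP_je (hp : ∀ i, i ∈ κ ↔ p i) (eP : Fin k ≃ {i // p i}) (eN : Fin m ≃ {i // ¬ p i}) (u : E (Fin k))
    (v : E (Fin m)) : pP κ (je eP eN (u, v)) = je eP eN (u, 0) := by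
  refine ext5 eP eN (fun a => ?_) fun a => ?_
  · rw [pP_apply, if_pos ((hp _).2 (eP a).2), je_in, je_in]
  · rw [pP_apply, if_neg (fun h => (eN a).2 ((hp _).1 h)), je_out]
    rfl

theorem pN_je (hp : ∀ i, i ∈ κ ↔ p i) (eP : Fin k ≃ {i // p i}) (eN : Fin m ≃ {i // ¬ p i}) (u : E (Fin k))
    (v : E (Fin m)) : pN κ (je eP eN (u, v)) = je eP eN (0, v) := by
  refine ext5 eP eN (fun a => ?_) fun a => ?_
  · rw [pN_apply, if_pos ((hp _).2 (eP a).2), je_in]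
    rfl
  · rw [pN_apply, if_neg (fun h => (eN a).2 ((hp _).1 h)), je_out, je_out]

theorem sum5 (eP : Fin k ≃ {i // p i}) (eN : Fin m ≃ {i // ¬ p i}) (f : Fin 5 → ℝ) :
    ∑ i, f i = ∑ a, f (eP a) + ∑ a, f (eN a) := by
  have h1 : ∑ a, f (eP a) = ∑ x : {i // p i}, f x := Fintype.sum_equiv eP _ _ fun _ => rfl
  have h2 : ∑ a, f (eN a) = ∑ x : {i // ¬ p i}, f x := Fintype.sum_equiv eN _ _ fun _ => rfl
  rw [h1, h2]
  exact (Fintype.sum_subtype_add_sum_subtype p f).symm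

theorem norm_je (eP : Fin k ≃ {i // p i}) (eN : Fin m ≃ {i // ¬ p i}) (u : E (Fin k))
    (v : E (Fin m)) : ‖je eP eN (u, v)‖ ^ 2 = ‖u‖ ^ 2 + ‖v‖ ^ 2 := by
  rw [EuclideanSpace.norm_sq_eq, EuclideanSpace.norm_sq_eq, EuclideanSpace.norm_sq_eq, sum5 eP eN]
  simp only [je_in, je_out]

theorem norm_pP (hp : ∀ i, i ∈ κ ↔ p i) (eP : Fin k ≃ {i // p i}) (eN : Fin m ≃ {i // ¬ p i}) (u : E (Fin k))
    (v : E (Fin m)) : ‖pP κ (je eP eN (u, v))‖ = ‖u‖ := by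
  have h := norm_je eP eN u 0
  rw [norm_zero, ← pP_je hp eP eN u v] at h
  have h2 : ‖pP κ (je eP eN (u, v))‖ ^ 2 = ‖u‖ ^ 2 := by rw [h]; ring
  exact (sq_eq_sq₀ (norm_nonneg _) (norm_nonneg _)).1 h2

theorem norm_pN (hp : ∀ i, i ∈ κ ↔ p i) (eP : Fin k ≃ {i // p i}) (eN : Fin m ≃ {i // ¬ p i}) (u : E (Fin k))
    (v : E (Fin m)) : ‖pN κ (je eP eN (u, v))‖ = ‖v‖ := by
  have h := norm_je eP eN 0 v
  rw [norm_zero, ← pN_je hp eP eN u v] at h
  have h2 : ‖pN κ (je eP eN (u, v))‖ ^ 2 = ‖v‖ ^ 2 := by rw [h]; ring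
  exact (sq_eq_sq₀ (norm_nonneg _) (norm_nonneg _)).1 h2

theorem je_add (eP : Fin k ≃ {i // p i}) (eN : Fin m ≃ {i // ¬ p i}) (u : E (Fin k))
    (v : E (Fin m)) : je eP eN (u, v) = je eP eN (0, v) + je eP eN (u, 0) := by
  refine ext5 eP eN (fun a => ?_) fun a => ?_
  · change _ = je eP eN (0, v) (eP a) + je eP eN (u, 0) (eP a)
    rw [je_in, je_in, je_in]
    simp
  · change _ = je eP eN (0, v) (eN a) + je eP eN (u, 0) (eN a)
    rw [je_out, je_out, je_out]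
    simp

/-- Fubini -/
theorem fub (hp : ∀ i, i ∈ κ ↔ p i) (eP : Fin k ≃ {i // p i}) (eN : Fin m ≃ {i // ¬ p i}) (D : E5 → ℝ)
    (g : E (Fin k) → ℝ) (f : E (Fin m) → ℝ)
    (hD : IntegrableOn D {z | 1 < ‖pN κ z‖ ∧ ‖pN κ z‖ < Real.exp 1 ∧ ‖pP κ z‖ < Real.pi / 2})
    (hg : IntegrableOn g {u | ‖u‖ < Real.pi / 2})
    (hf : IntegrableOn f {v | 1 < ‖v‖ ∧ ‖v‖ < Real.exp 1})
    (hfg : ∀ u v, 1 < ‖v‖ → ‖u‖ < Real.pi / 2 → g u * f v ≤ D (je eP eN (u, v))) :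
    (∫ u in {u | ‖u‖ < Real.pi / 2}, g u) * ∫ v in {v | 1 < ‖v‖ ∧ ‖v‖ < Real.exp 1}, f v ≤
      ∫ z in {z | 1 < ‖pN κ z‖ ∧ ‖pN κ z‖ < Real.exp 1 ∧ ‖pP κ z‖ < Real.pi / 2}, D z := by
  obtain ⟨W, hW⟩ : ∃ W : Set E5,
    W = {z | 1 < ‖pN κ z‖ ∧ ‖pN κ z‖ < Real.exp 1 ∧ ‖pP κ z‖ < Real.pi / 2} := ⟨_, rfl⟩
  obtain ⟨S, hS⟩ : ∃ S : Set (E (Fin k)), S = {u | ‖u‖ < Real.pi / 2} := ⟨_, rfl⟩
  obtain ⟨T, hT⟩ : ∃ T : Set (E (Fin m)), T = {v | 1 < ‖v‖ ∧ ‖v‖ < Real.exp 1} := ⟨_, rfl⟩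
  rw [← hW] at hD ⊢
  rw [← hS] at hg ⊢
  rw [← hT] at hf ⊢
  have hSm : MeasurableSet S := by
    rw [hS]
    exact (isOpen_lt continuous_norm continuous_const).measurableSet
  have hTm : MeasurableSet T := by
    rw [hT]
    exact ((isOpen_lt continuous_const continuous_norm).inter
      (isOpen_lt continuous_norm continuous_const)).measurableSet
  have hpre : je eP eN ⁻¹' W = S ×ˢ T := by
    ext ⟨u, v⟩
    rw [hW, hS, hT]
    simp only [Set.mem_preimage, Set.mem_ofPred_eq, norm_pN hp, norm_pP hp, Set.mem_prod]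
    tauto
  have hmp := mp_je eP eN
  have hemb : MeasurableEmbedding (je eP eN) := (je eP eN).measurableEmbedding
  have h1 : ∫ z in W, D z = ∫ p in S ×ˢ T, D (je eP eN p) := by
    rw [← hpre, hmp.setIntegral_preimage_emb hemb]
  have h2 : IntegrableOn (fun p => D (je eP eN p)) (S ×ˢ T) := by
    rw [← hpre]
    exact (hmp.integrableOn_comp_preimage hemb).2 hD
  have h3 : IntegrableOn (fun p : E (Fin k) × E (Fin m) => g p.1 * f p.2) (S ×ˢ T) := by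
    unfold IntegrableOn
    rw [Measure.volume_eq_prod, ← Measure.prod_restrict]
    exact Integrable.mul_prod hg hf
  rw [h1, ← setIntegral_prod_mul g f S T]
  refine setIntegral_mono_on h3 h2 (hSm.prod hTm) ?_
  rintro ⟨u, v⟩ ⟨hu, hv⟩
  rw [hS] at hu
  rw [hT] at hv
  exact hfg u v hv.1 hu

end Pool.Agent.MVS.H96
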